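import Pool.Agent.Y968.HS.LimA

/-!
Project HS, job LIM: the degree formula for Sobolev maps near the identity.
-/

set_option autoImplicit false

open MeasureTheory Set Metric Filter Topology
open scoped ENNReal NNReal

namespace Pool.Agent.Y968.HS

open Pool.Agent.Y485.HS

variable {n : ℕ}

lemma cont_det : Continuous fun L : E n →L[ℝ] E n => L.det := ContinuousLinearMap.continuous_det

/-- `det D` is controlled by the gradient -/
lemma det_bound {F : E n → E n} {g : E n → ℝ≥0∞} {D : E n → (E n →L[ℝ] E n)} (hD : Der F g D) :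
    ∃ C : ℝ≥0, ∀ᵐ x ∂(volume.restrict (BB n)), ‖(D x).det‖ₑ ≤ C * (g x + 1) ^ n := by
  obtain ⟨C, hC⟩ := hD.bound
  refine ⟨C ^ n, ?_⟩
  filter_upwards [hC] with x hx
  refine (det_le (D x)).trans ((pow_le_pow_left' hx n).trans (le_of_eq ?_))
  rw [mul_pow]
  push_cast
  rfl

lemma pow_add_one_le (a : ℝ≥0∞) (n : ℕ) : (a + 1) ^ n ≤ 2 ^ n * (a ^ n + 1) := by
  rcases le_total a 1 with h | h
  · calc (a + 1) ^ n ≤ (2 : ℝ≥0∞) ^ n := by
          refine pow_le_pow_left' ?_ n
          calc a + 1 ≤ 1 + 1 := add_le_add h le_rfl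
            _ = 2 := one_add_one_eq_two
      _ = 2 ^ n * 1 := (mul_one _).symm
      _ ≤ _ := mul_le_mul' le_rfl le_add_self
  · calc (a + 1) ^ n ≤ (2 * a) ^ n := by
          refine pow_le_pow_left' ?_ n
          rw [two_mul]
          exact add_le_add le_rfl h
      _ = 2 ^ n * a ^ n := mul_pow _ _ _
      _ ≤ _ := mul_le_mul' le_rfl le_self_add

lemma vol_BB : (volume : Measure (E n)) (BB n) < ∞ := measure_closedBall_lt_top

lemma det_fin {F : E n → E n} {g : E n → ℝ≥0∞} {D : E n → (E n →L[ℝ] E n)} (hF : Near F g) (hD : Der F g D) :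
    ∫⁻ x in BB n, ‖(D x).det‖ₑ < ∞ := by
  obtain ⟨C, hC⟩ := det_bound hD
  calc ∫⁻ x in BB n, ‖(D x).det‖ₑ ≤ ∫⁻ x in BB n, C * (2 ^ n * (g x ^ n + 1)) := by
        refine lintegral_mono_ae ?_
        filter_upwards [hC] with x hx
        exact hx.trans (mul_le_mul' le_rfl (pow_add_one_le _ _))
    _ = C * (2 ^ n * ((∫⁻ x in BB n, g x ^ n) + volume (BB n))) := by
        have m1 : Measurable fun x => g x ^ n + 1 := (hF.meas.pow_const n).add measurable_const
        rw [lintegral_const_mul _ (m1.const_mul _), lintegral_const_mul _ m1,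
          lintegral_add_right _ measurable_const, setLIntegral_one]
    _ < ∞ := by
        refine ENNReal.mul_lt_top ENNReal.coe_lt_top (ENNReal.mul_lt_top (ENNReal.pow_lt_top (by simp)) ?_)
        exact ENNReal.add_lt_top.2 ⟨hF.fin, vol_BB⟩

/-- on the tail sets the determinant is controlled by the energy -/
lemma det_tail {F : E n → E n} {g : E n → ℝ≥0∞} {D : E n → (E n →L[ℝ] E n)} (hF : Near F g) (hD : Der F g D) :
    ∃ C : ℝ≥0, ∀ l : ℕ, 1 ≤ l → ∫⁻ x in TT g l, ‖(D x).det‖ₑ ≤ C * ∫⁻ x in TT g l, g x ^ n := by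
  obtain ⟨C, hC⟩ := det_bound hD
  refine ⟨C * 2 ^ n, fun l hl => ?_⟩
  rw [← lintegral_const_mul _ (hF.meas.pow_const n)]
  refine setLIntegral_mono_ae' (meas_TT hF.meas l) ?_
  rw [ae_restrict_iff' meas_BB] at hC
  filter_upwards [hC] with x hx hxT
  refine (hx hxT.1).trans ?_
  push_cast
  rw [mul_assoc, ← mul_pow]
  refine mul_le_mul' le_rfl (pow_le_pow_left' ?_ n)
  rw [two_mul]
  refine add_le_add le_rfl ?_
  have h1 : (1 : ℝ≥0∞) ≤ l := by exact_mod_cast hl
  exact h1.trans hxT.2.le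

theorem lim : S_DL → S_UD → S_LIM := by
  intro hDL hUD n hn F g D hF hD
  refine ⟨det_fin hF hD, fun φ hφ hφ0 => ?_⟩
  -- a bound for `φ`
  have hcs : HasCompactSupport φ := by
    refine HasCompactSupport.of_support_subset_isCompact (isCompact_closedBall (0 : E n) 2) fun x hx => ?_
    rw [mem_closedBall_zero_iff]
    by_contra h
    exact hx (hφ0 x (not_le.1 h).le)
  obtain ⟨M, hM⟩ := hφ.bounded_above_of_compact_support hcs
  have hM0 : 0 ≤ M := (norm_nonneg _).trans (hM 0)
  obtain ⟨c, hc⟩ : ∃ c : ℝ≥0, c = lipschitzExtensionConstant (E n) := ⟨_, rfl⟩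
  obtain ⟨C, hC⟩ := det_tail hF hD
  set U : Set (E n) := ball 0 (5 / 2) with hU
  have hUm : MeasurableSet U := measurableSet_ball
  have hUB : U ⊆ BB n := (ball_subset_ball (by norm_num)).trans ball_subset_closedBall
  have hUv : (volume : Measure (E n)) U < ∞ := measure_ball_lt_top
  -- the right-hand side as an integral over `U`
  have hb0 : ∀ x ∈ BB n, x ∉ U → φ (F x) = 0 := by
    intro x hx hxU
    apply hφ0
    have h1 := hF.disp x hx
    rw [hU, mem_ball_zero_iff, not_lt] at hxU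
    rw [dist_eq_norm] at h1
    have h2 : ‖x‖ ≤ ‖F x‖ + ‖F x - x‖ := by
      have := norm_sub_le (F x) (F x - x)
      rwa [sub_sub_cancel] at this
    linarith
  have hbU : ∫ x in ball 0 3, φ (F x) * (D x).det = ∫ x in U, φ (F x) * (D x).det := by
    refine setIntegral_eq_of_subset_of_forall_sdiff_eq_zero measurableSet_ball (ball_subset_ball (by norm_num)) ?_
    intro x hx
    rw [hb0 x (ball_subset_closedBall.trans (closedBall_subset_closedBall (by norm_num)) hx.1) hx.2, zero_mul]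
  rw [hbU]
  -- measurability and integrability of `b`
  have hFm : AEStronglyMeasurable (fun x => φ (F x)) (volume.restrict U) := by
    have h1 : ContinuousOn (fun x => φ (F x)) U := hφ.comp_continuousOn (hF.cont.mono hUB)
    exact h1.aestronglyMeasurable hUm
  have hDm : AEStronglyMeasurable (fun x => (D x).det) (volume.restrict U) :=
    (cont_det.measurable.comp hD.meas).aestronglyMeasurable
  have hbn : ∀ x, ‖φ (F x) * (D x).det‖ₑ ≤ ENNReal.ofReal M * ‖(D x).det‖ₑ := by
    intro x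
    rw [enorm_mul]
    refine mul_le_mul' ?_ le_rfl
    rw [← ofReal_norm]
    exact ENNReal.ofReal_le_ofReal (hM _)
  have hbi : IntegrableOn (fun x => φ (F x) * (D x).det) U := by
    refine ⟨hFm.mul hDm, ?_⟩
    rw [hasFiniteIntegral_iff_enorm]
    calc ∫⁻ x in U, ‖φ (F x) * (D x).det‖ₑ ≤ ∫⁻ x in U, ENNReal.ofReal M * ‖(D x).det‖ₑ :=
          lintegral_mono fun x => hbn x
      _ ≤ ∫⁻ x in BB n, ENNReal.ofReal M * ‖(D x).det‖ₑ := lintegral_mono_set hUB
      _ = ENNReal.ofReal M * ∫⁻ x in BB n, ‖(D x).det‖ₑ :=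
          lintegral_const_mul _ (cont_det.measurable.comp hD.meas).enorm
      _ < ∞ := ENNReal.mul_lt_top ENNReal.ofReal_lt_top (det_fin hF hD)
  -- the main estimate
  have hmain : ∀ᶠ l : ℕ in atTop, ‖(∫ x in U, φ (F x) * (D x).det) - ∫ x, φ x‖ₑ ≤
      (ENNReal.ofReal M * ((c * 5) ^ n + C)) * ∫⁻ x in TT g l, g x ^ n := by
    obtain ⟨δ, hδ, hδ1, hδc⟩ : ∃ δ : ℝ, 0 < δ ∧ δ ≤ 1 ∧ (c * 5 + 1) * δ ≤ 1 / 8 := by
      refine ⟨1 / (8 * (c * 5 + 1)), by positivity, ?_, ?_⟩
      · rw [div_le_one (by positivity)]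
        have : (0 : ℝ) ≤ c := c.2
        linarith
      · apply le_of_eq
        have : (0 : ℝ) ≤ c := c.2
        field_simp
    have hv : 0 < ENNReal.ofReal (δ ^ n) * volume (ball (0 : E n) 1) :=
      ENNReal.mul_pos (by rw [Ne, ENNReal.ofReal_eq_zero, not_le]; positivity) (measure_ball_pos _ _ one_pos).ne'
    filter_upwards [(tau_tendsto hn hF.meas hF.fin).eventually_lt_const hv, eventually_ge_atTop 1] with l hτ hl
    have hl' : (1 : ℝ) ≤ l := by exact_mod_cast hl
    obtain ⟨G, hGl, hGe⟩ := (HH_lip hF hl).extend_finite_dimension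
    rw [← hc] at hGl
    have hGo : ∀ x, 3 ≤ ‖x‖ → G x = x := by
      intro x hx
      rw [← hGe (Or.inr hx)]
      unfold HH
      rw [chi_out hx, zero_smul, add_zero]
    have hGA : ∀ x ∈ AA g l, ‖x‖ ≤ 5 / 2 → G x = F x := by
      intro x hx hx2
      rw [← hGe (Or.inl hx)]
      unfold HH
      rw [chi_in hx2, one_smul]
      abel
    -- displacement
    have hGd : ∀ x, ‖x‖ ≤ 3 → ‖G x - x‖ ≤ 3 / 8 := by
      intro x hx
      obtain ⟨a, haA, hax⟩ := near_pt hF.meas hδ hδ1 hl hτ hx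
      have h1 : ‖G x - G a‖ ≤ c * (5 * l) * ‖x - a‖ := by
        have := hGl.dist_le_mul x a
        rw [dist_eq_norm, dist_eq_norm] at this
        simpa using this
      have h2 : ‖G a - a‖ ≤ 1 / 4 := by
        rw [← hGe (Or.inl haA)]
        unfold HH
        rw [add_sub_cancel_left, norm_smul, Real.norm_of_nonneg (chi_nonneg a)]
        have h3 := hF.disp a haA.1
        rw [dist_eq_norm] at h3
        calc chi a * ‖F a - a‖ ≤ 1 * ‖F a - a‖ := by
              gcongr
              exact chi_le_one a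
          _ ≤ 1 / 4 := by rwa [one_mul]
      have h4 : G x - x = (G x - G a) + (G a - a) + (a - x) := by abel
      have h5 := norm_add₃_le (a := G x - G a) (b := G a - a) (c := a - x)
      rw [← h4, norm_sub_rev a x] at h5
      have h6 : c * (5 * l) * ‖x - a‖ ≤ c * 5 * δ := by
        calc c * (5 * l) * ‖x - a‖ ≤ c * (5 * l) * (δ / l) := by gcongr
          _ = c * 5 * δ := by field_simp
      have h7 : ‖x - a‖ ≤ δ := hax.trans (div_le_self hδ.le hl')
      linarith
    have ha0 : ∀ x, x ∉ U → φ (G x) = 0 := by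
      intro x hxU
      apply hφ0
      rw [hU, mem_ball_zero_iff, not_lt] at hxU
      rcases le_total ‖x‖ 3 with h3 | h3
      · have h1 := hGd x h3
        have h2 : ‖x‖ ≤ ‖G x‖ + ‖G x - x‖ := by
          have := norm_sub_le (G x) (G x - x)
          rwa [sub_sub_cancel] at this
        linarith
      · rw [hGo x h3]
        linarith
    -- the degree formula for `G`
    have hdeg : ∫ x in U, φ (G x) * (fderiv ℝ G x).det = ∫ x, φ x := by
      rw [← hDL n G _ 3 (by norm_num) hGl hGo φ hφ hcs]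
      refine setIntegral_eq_integral_of_forall_compl_eq_zero fun x hx => ?_
      rw [ha0 x hx, zero_mul]
    -- measurability and integrability of `a`
    have ham : Measurable fun x => φ (G x) * (fderiv ℝ G x).det :=
      (hφ.comp hGl.continuous).measurable.mul (cont_det.measurable.comp (measurable_fderiv ℝ G))
    have han : ∀ x, ‖φ (G x) * (fderiv ℝ G x).det‖ₑ ≤ ENNReal.ofReal M * ((c * 5) ^ n * (l : ℝ≥0∞) ^ n) := by
      intro x
      rw [enorm_mul]
      refine mul_le_mul' ?_ ?_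
      · rw [← ofReal_norm]
        exact ENNReal.ofReal_le_ofReal (hM _)
      · refine (det_le _).trans ?_
        rw [← mul_pow]
        refine pow_le_pow_left' ?_ n
        have h1 := norm_fderiv_le_of_lipschitz ℝ hGl (x₀ := x)
        rw [← ofReal_norm]
        refine (ENNReal.ofReal_le_ofReal h1).trans (le_of_eq ?_)
        rw [ENNReal.ofReal_coe_nnreal]
        push_cast
        ring
    have hai : IntegrableOn (fun x => φ (G x) * (fderiv ℝ G x).det) U := by
      refine ⟨ham.aestronglyMeasurable, ?_⟩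
      rw [hasFiniteIntegral_iff_enorm]
      calc ∫⁻ x in U, ‖φ (G x) * (fderiv ℝ G x).det‖ₑ
          ≤ ∫⁻ x in U, ENNReal.ofReal M * ((c * 5) ^ n * (l : ℝ≥0∞) ^ n) := lintegral_mono fun x => han x
        _ = ENNReal.ofReal M * ((c * 5) ^ n * (l : ℝ≥0∞) ^ n) * volume U := setLIntegral_const _ _
        _ < ∞ := by
            refine ENNReal.mul_lt_top (ENNReal.mul_lt_top ENNReal.ofReal_lt_top
              (ENNReal.mul_lt_top (ENNReal.pow_lt_top ?_) (ENNReal.pow_lt_top (by simp)))) hUv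
            exact ENNReal.mul_lt_top ENNReal.coe_lt_top (by simp)
    -- the integrands agree on the sublevel set
    have hae : ∀ᵐ x ∂(volume : Measure (E n)), x ∈ AA g l ∩ U →
        φ (F x) * (D x).det - φ (G x) * (fderiv ℝ G x).det = 0 := by
      have h1 := hD.der
      rw [ae_restrict_iff' meas_BB] at h1
      have h2 := hUD n (AA g l ∩ U) ((meas_AA hF.meas l).inter hUm)
      rw [ae_restrict_iff' ((meas_AA hF.meas l).inter hUm)] at h2
      filter_upwards [h1, h2, hGl.ae_differentiableAt] with x hx1 hx2 hx3 hx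
      have h3 := (hx1 hx.1.1).2.2 l hx.1.2
      have h4 : HasFDerivWithinAt F (D x) (AA g l ∩ U) x := h3.mono inter_subset_left
      have h5 : HasFDerivWithinAt G (fderiv ℝ G x) (AA g l ∩ U) x := hx3.hasFDerivAt.hasFDerivWithinAt
      have hGF : ∀ y ∈ AA g l ∩ U, G y = F y := fun y hy => hGA y hy.1 (mem_ball_zero_iff.1 hy.2).le
      have h6 : HasFDerivWithinAt F (fderiv ℝ G x) (AA g l ∩ U) x :=
        h5.congr (fun y hy => (hGF y hy).symm) (hGF x hx).symm
      have h7 : D x = fderiv ℝ G x := (hx2 hx).eq h4 h6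
      rw [h7, hGF x hx, sub_self]
    -- the difference
    rw [← hdeg, ← integral_sub hbi hai]
    refine (enorm_integral_le_lintegral_enorm _).trans ?_
    have hsub : U ⊆ (AA g l ∩ U) ∪ TT g l := by
      intro x hx
      rcases le_or_gt (g x) l with h | h
      · exact Or.inl ⟨⟨hUB hx, h⟩, hx⟩
      · exact Or.inr ⟨hUB hx, h⟩
    calc ∫⁻ x in U, ‖φ (F x) * (D x).det - φ (G x) * (fderiv ℝ G x).det‖ₑ
        ≤ ∫⁻ x in (AA g l ∩ U) ∪ TT g l, ‖φ (F x) * (D x).det - φ (G x) * (fderiv ℝ G x).det‖ₑ :=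
          lintegral_mono_set hsub
      _ ≤ (∫⁻ x in AA g l ∩ U, ‖φ (F x) * (D x).det - φ (G x) * (fderiv ℝ G x).det‖ₑ) +
          ∫⁻ x in TT g l, ‖φ (F x) * (D x).det - φ (G x) * (fderiv ℝ G x).det‖ₑ := lintegral_union_le _ _ _
      _ = ∫⁻ x in TT g l, ‖φ (F x) * (D x).det - φ (G x) * (fderiv ℝ G x).det‖ₑ := by
          rw [setLIntegral_congr_fun_ae ((meas_AA hF.meas l).inter hUm) (g := fun _ => 0) ?_, lintegral_zero, zero_add]
          filter_upwards [hae] with x hx hxA
          rw [hx hxA, enorm_zero]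
      _ ≤ ∫⁻ x in TT g l, (ENNReal.ofReal M * ‖(D x).det‖ₑ +
          ENNReal.ofReal M * ((c * 5) ^ n * (l : ℝ≥0∞) ^ n)) := by
          refine lintegral_mono fun x => ?_
          exact enorm_sub_le.trans (add_le_add (hbn x) (han x))
      _ = (ENNReal.ofReal M * ∫⁻ x in TT g l, ‖(D x).det‖ₑ) +
          ENNReal.ofReal M * ((c * 5) ^ n * ((l : ℝ≥0∞) ^ n * volume (TT g l))) := by
          have m1 : Measurable fun x => ‖(D x).det‖ₑ := (cont_det.measurable.comp hD.meas).enorm
          rw [lintegral_add_right _ measurable_const, lintegral_const_mul _ m1, setLIntegral_const]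
          ring
      _ ≤ (ENNReal.ofReal M * (C * ∫⁻ x in TT g l, g x ^ n)) +
          ENNReal.ofReal M * ((c * 5) ^ n * ∫⁻ x in TT g l, g x ^ n) := by
          gcongr
          · exact hC l hl
          · exact markov l hF.meas
      _ = _ := by ring
  -- conclusion
  have hlim : Tendsto (fun l : ℕ => (ENNReal.ofReal M * (((c : ℝ≥0∞) * 5) ^ n + C)) * ∫⁻ x in TT g l, g x ^ n)
      atTop (𝓝 0) := by
    have h1 := ENNReal.Tendsto.const_mul (a := ENNReal.ofReal M * (((c : ℝ≥0∞) * 5) ^ n + C))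
      (tau_tendsto hn hF.meas hF.fin) (Or.inr (by
        refine (ENNReal.mul_lt_top ENNReal.ofReal_lt_top (ENNReal.add_lt_top.2
          ⟨ENNReal.pow_lt_top (ENNReal.mul_lt_top ENNReal.coe_lt_top (by simp)), ENNReal.coe_lt_top⟩)).ne))
    rwa [mul_zero] at h1
  have h0 := ge_of_tendsto hlim hmain
  have h1 : ‖(∫ x in U, φ (F x) * (D x).det) - ∫ x, φ x‖ₑ = 0 := le_antisymm h0 zero_le
  rw [enorm_eq_zero, sub_eq_zero] at h1
  exact h1

end Pool.Agent.Y968.HS
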