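import Pool.Agent.Y485.HS.Stm

/-!
Project HS, job LIM: determinants, tails of the gradient, the truncated maps.
-/

set_option autoImplicit false

open MeasureTheory Set Metric Filter Topology
open scoped ENNReal NNReal

namespace Pool.Agent.Y968.HS

open Pool.Agent.Y485.HS

variable {n : ℕ}

/-- the determinant is at most the `n`-th power of the norm -/
lemma det_le (L : E n →L[ℝ] E n) : ‖L.det‖ₑ ≤ ‖L‖ₑ ^ n := by
  have h1 := Measure.addHaar_image_continuousLinearMap (volume : Measure (E n)) L (ball 0 1)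
  have h2 : L '' (ball (0 : E n) 1) ⊆ closedBall 0 ‖L‖ := by
    rintro _ ⟨x, hx, rfl⟩
    rw [mem_closedBall_zero_iff]
    rw [mem_ball_zero_iff] at hx
    calc ‖L x‖ ≤ ‖L‖ * ‖x‖ := L.le_opNorm x
      _ ≤ ‖L‖ * 1 := by gcongr
      _ = _ := mul_one _
  have h3 := measure_mono (μ := (volume : Measure (E n))) h2
  rw [h1, Measure.addHaar_closedBall _ _ (norm_nonneg L), finrank_euclideanSpace_fin] at h3
  have h4 : (volume : Measure (E n)) (ball (0 : E n) 1) ≠ 0 := (measure_ball_pos _ _ one_pos).ne'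
  have h5 : (volume : Measure (E n)) (ball (0 : E n) 1) ≠ ∞ := measure_ball_lt_top.ne
  have h6 : ENNReal.ofReal |L.det| ≤ ENNReal.ofReal (‖L‖ ^ n) := by
    by_contra hcon
    rw [not_le] at hcon
    exact absurd h3 (not_le.2 (ENNReal.mul_lt_mul_left h4 h5 hcon))
  rw [ENNReal.ofReal_pow (norm_nonneg L), ofReal_norm, ← Real.norm_eq_abs, ofReal_norm] at h6
  exact h6

/-- the tail sets -/
def TT (g : E n → ℝ≥0∞) (l : ℕ) : Set (E n) := {x | x ∈ BB n ∧ (l : ℝ≥0∞) < g x}

/-- the sublevel sets -/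
def AA (g : E n → ℝ≥0∞) (l : ℕ) : Set (E n) := {x | x ∈ BB n ∧ g x ≤ l}

lemma meas_BB : MeasurableSet (BB n) := isClosed_closedBall.measurableSet

lemma meas_TT {g : E n → ℝ≥0∞} (hg : Measurable g) (l : ℕ) : MeasurableSet (TT g l) :=
  meas_BB.inter (measurableSet_lt measurable_const hg)

lemma meas_AA {g : E n → ℝ≥0∞} (hg : Measurable g) (l : ℕ) : MeasurableSet (AA g l) :=
  meas_BB.inter (measurableSet_le hg measurable_const)

lemma markov {g : E n → ℝ≥0∞} (l : ℕ) (hg : Measurable g) :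
    (l : ℝ≥0∞) ^ n * volume (TT g l) ≤ ∫⁻ x in TT g l, g x ^ n := by
  rw [← setLIntegral_const]
  refine setLIntegral_mono' (meas_TT hg l) fun x hx => ?_
  exact pow_le_pow_left' hx.2.le n

lemma tau_tendsto {g : E n → ℝ≥0∞} (hn : 1 ≤ n) (hg : Measurable g) (hf : ∫⁻ x in BB n, g x ^ n < ∞) :
    Tendsto (fun l : ℕ => ∫⁻ x in TT g l, g x ^ n) atTop (𝓝 0) := by
  have h0 : ∀ l : ℕ, ∫⁻ x in TT g l, g x ^ n ≤ ∫⁻ x in BB n, g x ^ n :=
    fun l => lintegral_mono_set fun x hx => hx.1
  have h1 : Tendsto (fun l : ℕ => (volume.restrict (BB n)) (TT g l)) atTop (𝓝 0) := by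
    have h2 : ∀ l : ℕ, (volume.restrict (BB n)) (TT g l) ≤ (∫⁻ x in BB n, g x ^ n) / l := by
      intro l
      rcases Nat.eq_zero_or_pos l with rfl | hl
      · rcases eq_or_ne (∫⁻ x in BB n, g x ^ n) 0 with h | h
        · have h3 : g =ᵐ[volume.restrict (BB n)] 0 := by
            have h4 := (lintegral_eq_zero_iff (hg.pow_const n)).1 h
            filter_upwards [h4] with x hx
            exact (pow_eq_zero_iff (by omega)).1 hx
          have h5 : (volume.restrict (BB n)) (TT g 0) = 0 := by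
            refine measure_mono_null (fun x hx => ?_) h3
            have := hx.2
            simp only [mem_compl_iff, mem_setOf_eq, Pi.zero_apply]
            exact fun h => by simp [h] at this
          rw [h5]
          exact zero_le
        · rw [Nat.cast_zero, ENNReal.div_zero h]
          exact le_top
      · have hl0 : (l : ℝ≥0∞) ≠ 0 := by exact_mod_cast hl.ne'
        rw [ENNReal.le_div_iff_mul_le (Or.inl hl0) (Or.inl (ENNReal.natCast_ne_top l)), mul_comm]
        have h3 : (volume.restrict (BB n)) (TT g l) ≤ volume (TT g l) := Measure.restrict_apply_le _ _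
        calc (l : ℝ≥0∞) * (volume.restrict (BB n)) (TT g l) ≤ (l : ℝ≥0∞) ^ n * volume (TT g l) := by
              refine mul_le_mul' ?_ h3
              exact le_self_pow₀ (by exact_mod_cast hl) (by omega)
          _ ≤ _ := (markov l hg).trans (h0 l)
    refine tendsto_of_tendsto_of_tendsto_of_le_of_le tendsto_const_nhds ?_ (fun _ => zero_le) h2
    have h4 := ENNReal.Tendsto.const_div (a := ∫⁻ x in BB n, g x ^ n)
      ENNReal.tendsto_nat_nhds_top (Or.inr hf.ne)
    rwa [ENNReal.div_top] at h4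
  have h2 := tendsto_setLIntegral_zero (μ := volume.restrict (BB n)) (f := fun x => g x ^ n) hf.ne h1
  refine h2.congr fun l => ?_
  rw [Measure.restrict_restrict (meas_TT hg l)]
  congr 2
  exact inter_eq_left.2 fun x hx => hx.1

/-- the cutoff -/
noncomputable def chi (x : E n) : ℝ := min 1 (max 0 (6 - 2 * ‖x‖))

lemma chi_nonneg (x : E n) : 0 ≤ chi x := le_min zero_le_one (le_max_left _ _)

lemma chi_le_one (x : E n) : chi x ≤ 1 := min_le_left _ _

lemma chi_out {x : E n} (hx : 3 ≤ ‖x‖) : chi x = 0 := by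
  unfold chi
  rw [max_eq_left (by linarith)]
  norm_num

lemma chi_in {x : E n} (hx : ‖x‖ ≤ 5 / 2) : chi x = 1 := by
  unfold chi
  rw [max_eq_right (by linarith), min_eq_left (by linarith)]

lemma chi_lip (x y : E n) : |chi x - chi y| ≤ 2 * ‖x - y‖ := by
  have h1 : |min 1 (max 0 (6 - 2 * ‖x‖)) - min 1 (max 0 (6 - 2 * ‖y‖))| ≤
      |(6 - 2 * ‖x‖) - (6 - 2 * ‖y‖)| := by
    refine (abs_min_sub_min_le_max _ _ _ _).trans ?_
    rw [sub_self, abs_zero, max_eq_right (abs_nonneg _)]
    refine (abs_max_sub_max_le_max _ _ _ _).trans ?_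
    rw [sub_self, abs_zero, max_eq_right (abs_nonneg _)]
  refine h1.trans ?_
  have h2 : (6 - 2 * ‖x‖) - (6 - 2 * ‖y‖) = -(2 * (‖x‖ - ‖y‖)) := by ring
  rw [h2, abs_neg, abs_mul, abs_two]
  have := abs_norm_sub_norm_le x y
  linarith

/-- the truncated map -/
noncomputable def HH (F : E n → E n) (x : E n) : E n := x + chi x • (F x - x)

lemma HH_lip {F : E n → E n} {g : E n → ℝ≥0∞} (hF : Near F g) {l : ℕ} (hl : 1 ≤ l) :
    LipschitzOnWith (5 * l) (HH F) (AA g l ∪ {x | 3 ≤ ‖x‖}) := by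
  have hl' : (1 : ℝ) ≤ l := by exact_mod_cast hl
  have hw : ∀ x ∈ AA g l, ‖F x - x‖ ≤ 1 / 4 := by
    intro x hx
    have := hF.disp x hx.1
    rwa [dist_eq_norm] at this
  have key1 : ∀ x ∈ AA g l, ∀ y ∈ AA g l, ‖HH F x - HH F y‖ ≤ 5 * l * ‖x - y‖ := by
    intro x hx y hy
    have h1 : ‖F x - F y‖ ≤ 2 * l * ‖x - y‖ := by
      have h2 := hF.haj x hx.1 y hy.1
      have h3 : edist (F x) (F y) ≤ edist x y * (2 * l) := by
        refine h2.trans (mul_le_mul' le_rfl ?_)
        rw [two_mul]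
        exact add_le_add hx.2 hy.2
      rw [edist_dist, edist_dist, dist_eq_norm, dist_eq_norm] at h3
      have h4 : (2 * (l : ℝ≥0∞)) = ENNReal.ofReal (2 * l) := by
        rw [ENNReal.ofReal_mul (by norm_num), ENNReal.ofReal_natCast]
        simp
      rw [h4, ← ENNReal.ofReal_mul (norm_nonneg _), ENNReal.ofReal_le_ofReal_iff (by positivity)] at h3
      linarith
    have h5 : HH F x - HH F y = (x - y) + chi x • ((F x - F y) - (x - y)) + (chi x - chi y) • (F y - y) := by
      unfold HH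
      module
    rw [h5]
    have h6 : ‖chi x • ((F x - F y) - (x - y))‖ ≤ 2 * l * ‖x - y‖ + ‖x - y‖ := by
      rw [norm_smul, Real.norm_of_nonneg (chi_nonneg x)]
      calc chi x * ‖(F x - F y) - (x - y)‖ ≤ 1 * ‖(F x - F y) - (x - y)‖ := by
            gcongr
            exact chi_le_one x
        _ ≤ _ := by
            rw [one_mul]
            exact (norm_sub_le _ _).trans (by linarith)
    have h7 : ‖(chi x - chi y) • (F y - y)‖ ≤ 2 * ‖x - y‖ * (1 / 4) := by
      rw [norm_smul, Real.norm_eq_abs]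
      exact mul_le_mul (chi_lip x y) (hw y hy) (norm_nonneg _) (by positivity)
    have h8 := norm_add₃_le (a := x - y) (b := chi x • ((F x - F y) - (x - y)))
      (c := (chi x - chi y) • (F y - y))
    nlinarith [norm_nonneg (x - y), mul_le_mul_of_nonneg_right hl' (norm_nonneg (x - y))]
  have key2 : ∀ x ∈ AA g l, ∀ y : E n, 3 ≤ ‖y‖ → ‖HH F x - HH F y‖ ≤ 5 * l * ‖x - y‖ := by
    intro x hx y hy
    have h5 : HH F x - HH F y = (x - y) + (chi x - chi y) • (F x - x) := by
      unfold HH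
      rw [chi_out hy]
      module
    rw [h5]
    have h7 : ‖(chi x - chi y) • (F x - x)‖ ≤ 2 * ‖x - y‖ * (1 / 4) := by
      rw [norm_smul, Real.norm_eq_abs]
      exact mul_le_mul (chi_lip x y) (hw x hx) (norm_nonneg _) (by positivity)
    have h8 := norm_add_le (x - y) ((chi x - chi y) • (F x - x))
    nlinarith [norm_nonneg (x - y), mul_le_mul_of_nonneg_right hl' (norm_nonneg (x - y))]
  refine LipschitzOnWith.of_dist_le_mul fun x hx y hy => ?_
  rw [dist_eq_norm, dist_eq_norm]
  push_cast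
  rcases hx with hx | hx <;> rcases hy with hy | hy
  · exact key1 x hx y hy
  · exact key2 x hx y hy
  · rw [norm_sub_rev, norm_sub_rev x y]
    exact key2 y hy x hx
  · have hx' : 3 ≤ ‖x‖ := hx
    have hy' : 3 ≤ ‖y‖ := hy
    unfold HH
    rw [chi_out hx', chi_out hy', zero_smul, zero_smul, add_zero, add_zero]
    nlinarith [norm_nonneg (x - y), mul_le_mul_of_nonneg_right hl' (norm_nonneg (x - y))]

/-- points of the sublevel sets near every point -/
lemma near_pt {g : E n → ℝ≥0∞} (hg : Measurable g) {δ : ℝ} (hδ : 0 < δ) (hδ1 : δ ≤ 1) {l : ℕ} (hl : 1 ≤ l)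
    (hτ : ∫⁻ x in TT g l, g x ^ n < ENNReal.ofReal (δ ^ n) * volume (ball (0 : E n) 1))
    {x : E n} (hx : ‖x‖ ≤ 3) : ∃ a ∈ AA g l, ‖x - a‖ ≤ δ / l := by
  have hl' : (1 : ℝ) ≤ l := by exact_mod_cast hl
  have hr : 0 < δ / l := by positivity
  have hr1 : δ / l ≤ 1 := (div_le_self hδ.le hl').trans hδ1
  have hsub : closedBall x (δ / l) ⊆ BB n := by
    intro y hy
    unfold BB
    rw [mem_closedBall_zero_iff]
    rw [mem_closedBall, dist_eq_norm] at hy
    have : ‖y‖ ≤ ‖y - x‖ + ‖x‖ := by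
      have := norm_add_le (y - x) x
      rwa [sub_add_cancel] at this
    linarith
  by_contra hcon
  push Not at hcon
  have h1 : closedBall x (δ / l) ⊆ TT g l := by
    intro y hy
    refine ⟨hsub hy, ?_⟩
    by_contra h2
    rw [not_lt] at h2
    have h3 := hcon y ⟨hsub hy, h2⟩
    rw [mem_closedBall, dist_eq_norm, norm_sub_rev] at hy
    linarith
  have h2 := measure_mono (μ := (volume : Measure (E n))) h1
  rw [Measure.addHaar_closedBall _ _ hr.le, finrank_euclideanSpace_fin] at h2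
  have h3 : ENNReal.ofReal (δ ^ n) * volume (ball (0 : E n) 1) ≤ (l : ℝ≥0∞) ^ n * volume (TT g l) := by
    refine le_trans (le_of_eq ?_) (mul_le_mul' le_rfl h2)
    rw [← mul_assoc]
    congr 1
    rw [← ENNReal.ofReal_natCast, ← ENNReal.ofReal_pow (by positivity), ← ENNReal.ofReal_mul (by positivity),
      ← mul_pow]
    congr 2
    field_simp
  exact absurd (hτ.trans_le (h3.trans (markov l hg))) (lt_irrefl _)

end Pool.Agent.Y968.HS
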